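import Pool.Agent.Helper94.BA.Ctm
import Pool.Agent.Helper84.BA.ZfcMain

/-!
# The consistency of `b < a_Borel`

The sentence `Sentence univ univ` implies that the bounding number is less than the Borel almost
disjointness number, and it is true in a countable transitive model of ZFC (a finite support
iteration of Mathias type forcings over the Hechler model).
-/

set_option autoImplicit false

namespace Pool.Agent.Results.MP_f489e1_lc.BorelLarge

open Set Pool.Agent.Helper32.HB Pool.Agent.Helper94.BA

/-- **Positive answer to Q1.** If the sentence `Sentence univ univ` is true then the bounding number
is less than the Borel almost disjointness number; and the sentence is true in a countable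
transitive model `M` of ZFC: for points and sets of points which are elements of `M`. -/
theorem result :
    (Pool.Agent.Helper94.BA.Sentence univ univ → bNum < aBorel) ∧
    ∃ M : Set ZFSet.{0}, M.Countable ∧ IsTransModelZFC M ∧
      Pool.Agent.Helper94.BA.Sentence (realsP M) (setsP M) :=
  ⟨b_lt_aBorel, exists_ctm⟩

end Pool.Agent.Results.MP_f489e1_lc.BorelLarge
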